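import Pool.Agent.Helper45.SP.GoalsF

/-! # Packet LMUL: products and inverses on large balls -/

open Complex Metric Set Filter Topology
open scoped ContDiff ComplexConjugate

namespace Pool.Agent.Helper79.SP

open Pool.Agent.Helper95.Lin Pool.Agent.Helper10.SP Pool.Agent.Helper45.SP

/-- The identity theorem on a ball. -/
theorem idb {n : ℕ} {F : Type*} [NormedAddCommGroup F] [NormedSpace ℂ F] [CompleteSpace F]
    {z₀ : Cn n} {r : ℝ} {f f' : Cn n → F} (hf : DifferentiableOn ℂ f (ball z₀ r))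
    (hf' : DifferentiableOn ℂ f' (ball z₀ r)) {z : Cn n} (hz : z ∈ ball z₀ r)
    (heq : f =ᶠ[𝓝 z] f') : EqOn f f' (ball z₀ r) := by
  intro y hy
  obtain ⟨l, hl⟩ : ∃ l : ℂ → Cn n, l = fun ζ => z + ζ • (y - z) := ⟨_, rfl⟩
  have hlc : Continuous l := by
    rw [hl]
    fun_prop
  have hld : Differentiable ℂ l := by
    rw [hl]
    fun_prop
  have hS : IsOpen (l ⁻¹' ball z₀ r) := isOpen_ball.preimage hlc
  have hconv : Convex ℝ (l ⁻¹' ball z₀ r) := by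
    intro ζ hζ ζ' hζ' s s' hs hs' hss
    have h1 : l (s • ζ + s' • ζ') = s • l ζ + s' • l ζ' := by
      simp only [hl]
      have h2 : z = s • z + s' • z := by
        rw [← add_smul, hss, one_smul]
      nth_rewrite 1 [h2]
      simp only [add_smul, smul_add, smul_assoc]
      abel
    rw [mem_preimage, h1]
    exact convex_ball z₀ r hζ hζ' hs hs' hss
  have h0 : (0 : ℂ) ∈ l ⁻¹' ball z₀ r := by
    rw [mem_preimage, hl]
    simpa using hz
  have h1 : (1 : ℂ) ∈ l ⁻¹' ball z₀ r := by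
    rw [mem_preimage, hl]
    simpa using hy
  have a1 : AnalyticOnNhd ℂ (f ∘ l) (l ⁻¹' ball z₀ r) :=
    (hf.comp hld.differentiableOn (mapsTo_preimage _ _)).analyticOnNhd hS
  have a2 : AnalyticOnNhd ℂ (f' ∘ l) (l ⁻¹' ball z₀ r) :=
    (hf'.comp hld.differentiableOn (mapsTo_preimage _ _)).analyticOnNhd hS
  have hl0 : l 0 = z := by simp [hl]
  have hev : (f ∘ l) =ᶠ[𝓝 0] (f' ∘ l) := by
    have : Tendsto l (𝓝 0) (𝓝 z) := by
      rw [← hl0]
      exact hlc.tendsto 0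
    exact this.eventually heq
  have h2 := a1.eqOn_of_preconnected_of_eventuallyEq a2 hconv.isPreconnected h0 hev h1
  simpa [hl] using h2

/-- All three components are holomorphic on `U`. -/
structure Hol {b : ℕ} (t : Tri b) (U : Set (Cn b)) : Prop where
  g : DifferentiableOn ℂ t.g U
  a : DifferentiableOn ℂ t.a U
  β : DifferentiableOn ℂ t.β U

variable {b : ℕ} {z₀ : Cn b} {r ρ ρ' d : ℝ} {A : Set (Tri b)} {t s u : Tri b}

theorem Hol.mono {U V : Set (Cn b)} (h : Hol t U) (hV : V ⊆ U) : Hol t V :=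
  ⟨h.g.mono hV, h.a.mono hV, h.β.mono hV⟩

theorem hol_one {U : Set (Cn b)} : Hol (Tri.one : Tri b) U :=
  ⟨differentiableOn_id, differentiableOn_const _, differentiableOn_const _⟩

theorem Hol.comp {U V : Set (Cn b)} (ht : Hol t V) (hs : Hol s U) (hm : MapsTo s.g U V) :
    Hol (t.comp s) U :=
  ⟨ht.g.comp hs.g hm, (ht.a.comp hs.g hm).mul hs.a,
    ((ht.a.comp hs.g hm).mul hs.β).add (ht.β.comp hs.g hm)⟩

theorem hol_mem (hA : LGrp z₀ r A) (ht : t ∈ A) (hρ : ρ ≤ r) : Hol t (ball z₀ ρ) :=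
  Hol.mono ⟨hA.g_holo t ht, hA.a_holo t ht, hA.b_holo t ht⟩ (ball_subset_ball hρ)

theorem eqOn_mono {U V : Set (Cn b)} (h : t.EqOn s U) (hV : V ⊆ U) : t.EqOn s V :=
  fun z hz => h z (hV hz)

/-- The identity theorem for the three components. -/
theorem tri_idb (ht : Hol t (ball z₀ ρ)) (hs : Hol s (ball z₀ ρ)) (hd : 0 < d)
    (h : t.EqOn s (ball z₀ d)) : t.EqOn s (ball z₀ ρ) := by
  intro z hz
  have hρ : 0 < ρ := pos_of_mem_ball hz
  have hz₀ : z₀ ∈ ball z₀ ρ := mem_ball_self hρ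
  have hev : ∀ᶠ z in 𝓝 z₀, z ∈ ball z₀ d := ball_mem_nhds z₀ hd
  exact ⟨idb ht.g hs.g hz₀ (hev.mono fun z hz => (h z hz).1) hz,
    idb ht.a hs.a hz₀ (hev.mono fun z hz => (h z hz).2.1) hz,
    idb ht.β hs.β hz₀ (hev.mono fun z hz => (h z hz).2.2) hz⟩

theorem near_mono {x : Cn b} {f : Cn b → Cn b} {η η' : ℝ} (h : Near x ρ f η) (hρ : ρ' ≤ ρ)
    (hη : η ≤ η') : Near x ρ' f η' := fun z hz => (h z (ball_subset_ball hρ hz)).trans hη

theorem near_maps {f : Cn b → Cn b} {η : ℝ} (h : Near z₀ ρ f η) (hη : ρ + η ≤ ρ') :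
    MapsTo f (ball z₀ ρ) (ball z₀ ρ') := by
  intro z hz
  have h1 := h z hz
  rw [mem_ball] at hz ⊢
  have h2 : dist (f z) z ≤ η := by
    rw [dist_eq_norm]
    exact h1
  have h3 := dist_triangle (f z) z z₀
  linarith

/-- **Packet LMUL.** -/
theorem LMUL (hLCONV : S_LCONV) (hSURJ : S_SURJ) : S_LMUL := by
  intro b z₀ r A hA ρ hρ ε hε
  have hr := hA.pos
  obtain ⟨ρ₁, hρ₁, hρ₁r⟩ : ∃ ρ₁, max ρ 0 < ρ₁ ∧ ρ₁ < r := exists_between (max_lt hρ hr)
  have hρρ₁ : ρ < ρ₁ := lt_of_le_of_lt (le_max_left _ _) hρ₁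
  have hρ₁0 : 0 < ρ₁ := lt_of_le_of_lt (le_max_right _ _) hρ₁
  obtain ⟨η₁, hη₁, H1⟩ := hSURJ z₀ ρ ρ₁ hρρ₁ ε hε
  obtain ⟨η₂, hη₂, H2⟩ := hLCONV hA z₀ (r / 2) (half_pos hr)
    (ball_subset_ball (by linarith)) ρ₁ hρ₁r (min η₁ (r - ρ₁)) (lt_min hη₁ (by linarith))
  obtain ⟨η₃, hη₃, H3⟩ := hA.mul
  obtain ⟨η₄, hη₄, H4⟩ := hA.inv
  have hmaps : ∀ s ∈ A, Near z₀ (r / 2) s.g (min η₂ (min η₃ η₄)) →
      MapsTo s.g (ball z₀ ρ₁) (ball z₀ r) := by
    intro s hs hn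
    refine near_maps (near_mono (H2 s hs (near_mono hn le_rfl (min_le_left _ _))) le_rfl
      (min_le_right _ _)) ?_
    linarith
  have hmul : ∀ t ∈ A, ∀ s ∈ A, Near z₀ (r / 2) s.g (min η₂ (min η₃ η₄)) → ∀ u ∈ A,
      IsMul z₀ u t s → u.EqOn (t.comp s) (ball z₀ ρ₁) := by
    rintro t ht s hs hn u hu ⟨d, hd, h⟩
    exact tri_idb (hol_mem hA hu hρ₁r.le)
      ((hol_mem hA ht le_rfl).comp (hol_mem hA hs hρ₁r.le) (hmaps s hs hn)) hd h
  refine ⟨min η₂ (min η₃ η₄), lt_min hη₂ (lt_min hη₃ hη₄), ?_⟩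
  intro t ht htn
  have hsub : ball z₀ ρ ⊆ ball z₀ ρ₁ := ball_subset_ball hρρ₁.le
  refine ⟨?_, ?_, ?_⟩
  · intro s hs hsn
    refine ⟨(hmaps s hs hsn).mono_left hsub, ?_⟩
    obtain ⟨u, hu, d, hd, h⟩ := H3 t ht s hs
      (near_mono htn le_rfl ((min_le_right _ _).trans (min_le_left _ _)))
      (near_mono hsn le_rfl ((min_le_right _ _).trans (min_le_left _ _)))
    exact ⟨u, hu, eqOn_mono (hmul t ht s hs hsn u hu ⟨d, hd, h⟩) hsub⟩
  · intro s hs hsn u hu h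
    exact eqOn_mono (hmul t ht s hs hsn u hu h) hsub
  · obtain ⟨u, hu, d, hd, h⟩ := H4 t ht
      (near_mono htn le_rfl ((min_le_right _ _).trans (min_le_right _ _)))
    have h1 : (u.comp t).EqOn Tri.one (ball z₀ ρ₁) :=
      tri_idb ((hol_mem hA hu le_rfl).comp (hol_mem hA ht hρ₁r.le) (hmaps t ht htn)) hol_one hd h
    have hpt : ∀ w ∈ ball z₀ ρ, u.g w ∈ ball z₀ ρ₁ ∧ t.g (u.g w) = w ∧ ‖u.g w - w‖ ≤ ε ∧
        u.a w * t.a (u.g w) = 1 ∧ u.a w * t.β (u.g w) + u.β w = 0 := by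
      intro w hw
      obtain ⟨z, hz, hzw, hzn⟩ := (H1 t.g (hol_mem hA ht hρ₁r.le).g
        (near_mono (H2 t ht (near_mono htn le_rfl (min_le_left _ _))) le_rfl
          (min_le_left _ _))).1 w hw
      obtain ⟨e1, e2, e3⟩ := h1 z hz
      have e1' : u.g (t.g z) = z := e1
      have e2' : u.a (t.g z) * t.a z = 1 := e2
      have e3' : u.a (t.g z) * t.β z + u.β (t.g z) = 0 := e3
      rw [hzw] at e1' e2' e3'
      rw [e1']
      exact ⟨hz, hzw, hzn, e2', e3'⟩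
    refine ⟨u, hu, eqOn_mono h1 hsub, ?_, ?_, ?_⟩
    · intro w hw
      obtain ⟨-, e1, -, e2, e3⟩ := hpt w hw
      refine ⟨e1, ?_, ?_⟩
      · change t.a (u.g w) * u.a w = 1
        rw [mul_comm]
        exact e2
      · change t.a (u.g w) * u.β w + t.β (u.g w) = 0
        linear_combination t.a (u.g w) * e3 - t.β (u.g w) * e2
    · intro w hw
      exact ball_subset_ball hρ₁r.le (hpt w hw).1
    · intro w hw
      exact (hpt w hw).2.2.1

end Pool.Agent.Helper79.SP
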