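import Pool.Agent.Helper10.SP.GoalsK
import Pool.Agent.Helper79.SP.LMUL

/-! # Packet ROOT: the fibre parts are roots of unity of bounded order -/

open Complex Metric Set Filter Topology MeasureTheory
open scoped ContDiff ComplexConjugate ComplexOrder Manifold

namespace Pool.Agent.Helper79.SP

open Pool.Agent.Helper95.Lin Pool.Agent.Helper10.SP

/-- `t` covers the identity over the ball about `c i`. -/
structure Fix {b N : ℕ} (c : Fin N → Cn b) (P : Set (Cn b) → Tri b → Prop) (i : Fin N)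
    (t : Tri b) : Prop where
  mem : P (ball (c i) 4) t
  id : ∀ z ∈ ball (c i) 4, t.g z = z

variable {b N : ℕ} {c : Fin N → Cn b} {R : ℝ} {P : Set (Cn b) → Tri b → Prop} {Φ : Cn b → ℝ}
  {C : ℝ} {i : Fin N} {t s : Tri b}

theorem ci_mem (i : Fin N) {ρ : ℝ} (h : 0 < ρ) : c i ∈ ball (c i) ρ := mem_ball_self h

theorem Fix.norm_a (hA : AFol c R P Φ C) (h : Fix c P i t) {z : Cn b} (hz : z ∈ ball (c i) 4) :
    ‖t.a z‖ = 1 := by
  obtain ⟨-, h1⟩ := hA.pot _ _ h.mem z hz
  have hd : fderiv ℂ t.g z = ContinuousLinearMap.id ℂ (Cn b) := by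
    have h2 : t.g =ᶠ[𝓝 z] fun y => y := by
      filter_upwards [isOpen_ball.mem_nhds hz] with y hy
      exact h.id y hy
    rw [h2.fderiv_eq]
    exact fderiv_id
  rw [hd, h.id z hz] at h1
  have h3 : (ContinuousLinearMap.id ℂ (Cn b)).det = 1 := by
    simp [ContinuousLinearMap.det]
  rw [h3] at h1
  have h4 : Real.log (‖t.a z‖ ^ 2) = 0 := by
    simp only [norm_one, one_pow, Real.log_one] at h1
    linarith
  have ha : t.a z ≠ 0 := ((hA.holo _ _ h.mem).2.2.2.2.2 z hz).2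
  have h5 : 0 < ‖t.a z‖ ^ 2 := by positivity
  have h6 : ‖t.a z‖ ^ 2 = 1 := Real.eq_one_of_pos_of_log_eq_zero h5 h4
  nlinarith [norm_nonneg (t.a z)]

theorem Fix.const_a (hA : AFol c R P Φ C) (h : Fix c P i t) {z : Cn b} (hz : z ∈ ball (c i) 4) :
    t.a z = t.a (c i) := by
  have h1 : IsMaxOn (norm ∘ t.a) (ball (c i) 4) (c i) := by
    intro y hy
    simp only [Function.comp_apply, Set.mem_ofPred_eq]
    rw [h.norm_a hA hy, h.norm_a hA (ci_mem i (by norm_num))]
  exact Complex.eqOn_of_isPreconnected_of_isMaxOn_norm (convex_ball (c i) 4).isPreconnected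
    isOpen_ball (hA.holo _ _ h.mem).2.2.2.1 (ci_mem i (by norm_num)) h1 hz

theorem Fix.comp (hA : AFol c R P Φ C) (ht : Fix c P i t) (hs : Fix c P i s) :
    Fix c P i (t.comp s) := by
  refine ⟨hA.comp _ _ _ t s ht.mem hs.mem isOpen_ball subset_rfl ?_, ?_⟩
  · intro z hz
    rw [hs.id z hz]
    exact hz
  · intro z hz
    change t.g (s.g z) = z
    rw [hs.id z hz, ht.id z hz]

/-- The inverse. -/
theorem Fix.inv (hA : AFol c R P Φ C) (h : Fix c P i t) :
    ∃ s, Fix c P i s ∧ s.a (c i) * t.a (c i) = 1 ∧ s.a (c i) * t.β (c i) + s.β (c i) = 0 := by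
  have hc : c i ∈ ball (c i) 4 := ci_mem i (by norm_num)
  obtain ⟨s, U', U'', hs, htU', hU''o, hcU'', hU''s, hm, he⟩ := hA.inv _ _ h.mem (c i) hc
  rw [h.id _ hc] at htU'
  have he0 := he (c i) hcU''
  have e1 : s.g (t.g (c i)) = c i := he0.1
  have e2 : s.a (t.g (c i)) * t.a (c i) = 1 := he0.2.1
  have e3 : s.a (t.g (c i)) * t.β (c i) + s.β (t.g (c i)) = 0 := he0.2.2
  rw [h.id _ hc] at e1 e2 e3
  have hc2 : s.g (c i) ∈ Bd c 2 := by
    rw [e1]
    exact mem_iUnion.2 ⟨i, ci_mem i (by norm_num)⟩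
  obtain ⟨s', V, hs', hVo, hcV, hVU', hsV⟩ := hA.ext i (c i) (ci_mem i (by norm_num)) U' s hs htU' hc2
  have hgs : DifferentiableOn ℂ s'.g (ball (c i) 4) := (hA.holo _ _ hs').2.2.1
  have hev : s'.g =ᶠ[𝓝 (c i)] fun y => y := by
    filter_upwards [hVo.mem_nhds hcV, hU''o.mem_nhds hcU'', isOpen_ball.mem_nhds hc] with y hy hy' hy4
    rw [(hsV y hy).1]
    have := (he y hy').1
    change s.g (t.g y) = y at this
    rwa [h.id y hy4] at this
  have hid := idb hgs differentiableOn_id hc hev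
  obtain ⟨-, f2, f3⟩ := hsV (c i) hcV
  refine ⟨s', ⟨hs', fun z hz => hid hz⟩, ?_, ?_⟩
  · rw [f2]
    exact e2
  · rw [f2, f3]
    exact e3

/-- Conjugation of a translation. -/
theorem Fix.conj (hA : AFol c R P Φ C) (ht : Fix c P i t) (hs : Fix c P i s)
    (h1 : s.a (c i) = 1) : ∃ u, Fix c P i u ∧ u.a (c i) = 1 ∧ u.β (c i) = t.a (c i) * s.β (c i) := by
  have hc : c i ∈ ball (c i) 4 := ci_mem i (by norm_num)
  obtain ⟨r, hr, e2, e3⟩ := ht.inv hA
  refine ⟨(t.comp s).comp r, (ht.comp hA hs).comp hA hr, ?_, ?_⟩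
  · change t.a (s.g (r.g (c i))) * s.a (r.g (c i)) * r.a (c i) = 1
    rw [hr.id _ hc, hs.id _ hc, h1]
    linear_combination e2
  · change t.a (s.g (r.g (c i))) * s.a (r.g (c i)) * r.β (c i) +
      (t.a (s.g (r.g (c i))) * s.β (r.g (c i)) + t.β (s.g (r.g (c i)))) = t.a (c i) * s.β (c i)
    rw [hr.id _ hc, hs.id _ hc, h1]
    linear_combination t.a (c i) * e3 - t.β (c i) * e2

/-- **Packet ROOT.** -/
theorem root (hFIBT : S_FIBT) : S_ROOT := by
  intro b N c R P Φ C hA hD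
  have key : ∀ i : Fin N, ∃ L : ℕ, 1 ≤ L ∧ ∀ t, Big c P i t → (∀ z ∈ ball (c i) 4, t.g z = z) →
      ∀ z ∈ ball (c i) 4, t.a z ^ L = 1 := by
    intro i
    have hc : c i ∈ ball (c i) 4 := ci_mem i (by norm_num)
    obtain ⟨t₁, t₂, hb1, -, hid, hli⟩ := hFIBT c R P Φ C hA hD i (c i) (ci_mem i (by norm_num))
    have hF1 : Fix c P i t₁ := ⟨hb1.1, fun z hz => (hid z hz).1⟩
    have ha1 : t₁.a (c i) = 1 := (hid _ hc).2.2.1
    have hβ : t₁.β (c i) ≠ 0 := by
      have := hli.ne_zero 0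
      simpa using this
    -- the finite set of small translations
    have hfin : {v : ℂ | ‖v‖ ≤ ‖t₁.β (c i)‖ ∧ ∃ s, Fix c P i s ∧ s.a (c i) = 1 ∧
        s.β (c i) = v}.Finite := by
      by_contra hinf
      have hinf : {v : ℂ | ‖v‖ ≤ ‖t₁.β (c i)‖ ∧ ∃ s, Fix c P i s ∧ s.a (c i) = 1 ∧
        s.β (c i) = v}.Infinite := hinf
      let f := hinf.natEmbedding
      choose s hs using fun k => (f k).2.2
      have hbig : ∀ k, Big c P i (s k) ∧ ‖(s k).β (c i)‖ ≤ ‖t₁.β (c i)‖ := by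
        intro k
        refine ⟨⟨(hs k).1.mem, c i, ci_mem i (by norm_num), ?_⟩, ?_⟩
        · rw [(hs k).1.id _ hc]
          exact mem_iUnion.2 ⟨i, ci_mem i (by norm_num)⟩
        · rw [(hs k).2.2]
          exact (f k).2.1
      obtain ⟨k, l, hkl, he⟩ := hA.fin i _ s hbig
      have h1 := (he (c i) hc).2.2
      rw [(hs k).2.2, (hs l).2.2] at h1
      exact hkl (f.injective (Subtype.ext h1))
    refine ⟨hfin.toFinset.card.factorial, Nat.succ_le_of_lt (Nat.factorial_pos _), ?_⟩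
    intro t hbt htid z hz
    have hF : Fix c P i t := ⟨hbt.1, htid⟩
    rw [hF.const_a hA hz]
    have hα : ‖t.a (c i)‖ = 1 := hF.norm_a hA hc
    have hα0 : t.a (c i) ≠ 0 := by
      intro h0
      rw [h0, norm_zero] at hα
      norm_num at hα
    have hpow : ∀ p : ℕ, ∃ s, Fix c P i s ∧ s.a (c i) = 1 ∧
        s.β (c i) = t.a (c i) ^ p * t₁.β (c i) := by
      intro p
      induction p with
      | zero => exact ⟨t₁, hF1, ha1, by simp⟩
      | succ p ih =>
        obtain ⟨s, hs, hs1, hs2⟩ := ih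
        obtain ⟨u, hu, hu1, hu2⟩ := hF.conj hA hs hs1
        refine ⟨u, hu, hu1, ?_⟩
        rw [hu2, hs2]
        ring
    have hmem : ∀ p ∈ Finset.range (hfin.toFinset.card + 1),
        t.a (c i) ^ p * t₁.β (c i) ∈ hfin.toFinset := by
      intro p _
      rw [Set.Finite.mem_toFinset]
      refine ⟨?_, hpow p⟩
      rw [norm_mul, norm_pow, hα, one_pow, one_mul]
    obtain ⟨p, hp, q, hq, hpq, he⟩ := Finset.exists_ne_map_eq_of_card_lt_of_maps_to
      (by rw [Finset.card_range]; exact Nat.lt_succ_self _) hmem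
    have he2 : t.a (c i) ^ p = t.a (c i) ^ q := mul_right_cancel₀ hβ he
    have main : ∀ p q : ℕ, p < q → q < hfin.toFinset.card + 1 → t.a (c i) ^ p = t.a (c i) ^ q →
        t.a (c i) ^ hfin.toFinset.card.factorial = 1 := by
      intro p q hpq hq he
      have h1 : t.a (c i) ^ (q - p) = 1 := by
        have h2 : t.a (c i) ^ p * t.a (c i) ^ (q - p) = t.a (c i) ^ p * 1 := by
          rw [← pow_add, Nat.add_sub_cancel' hpq.le, mul_one, ← he]
        exact mul_left_cancel₀ (pow_ne_zero _ hα0) h2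
      obtain ⟨m, hm⟩ := Nat.dvd_factorial (m := q - p) (n := hfin.toFinset.card) (by omega) (by omega)
      rw [hm, pow_mul, h1, one_pow]
    rw [Finset.mem_range] at hp hq
    rcases lt_or_gt_of_ne hpq with h | h
    · exact main p q h hq he2
    · exact main q p h hp he2.symm
  choose L hL1 hL using key
  refine ⟨∏ i, L i, Finset.one_le_prod' fun i _ => hL1 i, ?_⟩
  intro i t hbt htid z hz
  obtain ⟨m, hm⟩ := Finset.dvd_prod_of_mem L (Finset.mem_univ i)
  rw [hm, pow_mul, hL i t hbt htid z hz, one_pow]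

end Pool.Agent.Helper79.SP
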